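import Mathlib
import Pool.Agent.N675.M.Stm6
import Pool.Agent.N675.M.Cluster

/-! Two forms, one function arbitrary. -/

namespace Pool.Agent.N26.M

open Finset Pool.Agent.N675 Pool.Agent.N675.M Pool.Agent.N781.A Pool.Agent.N781.FV

theorem twb : S_TWB := by
  classical
  intro h hh hMR κ ι _ _ _ _ a L i₀ i₁ ha hne hall ⟨t₀, ht₀⟩ R ε hε
  set vn : ℤ := -L i₀ t₀ with hvn
  set vt : ℤ := a i₀ with hvt
  set V : ι → ℤ := fun i => a i * vn + L i t₀ * vt with hV
  have hV0 : V i₀ = 0 := by simp only [hV, hvn, hvt]; ring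
  have hV1 : V i₁ ≠ 0 := by
    intro h0
    apply ht₀
    simp only [hV, hvn, hvt] at h0
    linarith
  set C₁ : ℝ := 4 * |(vn : ℝ)| + |(vt : ℝ)| with hC₁
  have hC₁0 : 0 ≤ C₁ := by positivity
  set η : ℝ := min 1 (ε / (2 * (C₁ + 1))) with hη
  have hη0 : 0 < η := lt_min one_pos (by positivity)
  have hη1 : η ≤ 1 := min_le_left _ _
  set C : ℕ := R * ∑ j, (L i₁ j).natAbs with hC
  obtain ⟨K₁, hK₁⟩ := hMR (a i₁) (V i₁) (ha i₁) hV1 1 C (ε / 2) (by positivity)
  obtain ⟨K₂, hK₂⟩ := exists_nat_ge (((K₁ + 2 : ℕ) : ℝ) / η)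
  refine ⟨K₁ + K₂ + 1, fun B x hB hx hBx F hF hFh => ?_⟩
  have hB0 : ∀ i, 0 < B i := fun i => lt_of_lt_of_le (by omega) (hB i)
  have hx0 : 0 < x := by omega
  set b : ℕ := min (B t₀) x with hb
  have hb1 : b ≤ B t₀ := min_le_left _ _
  have hb2 : b ≤ x := min_le_right _ _
  have hbK : K₁ + K₂ + 1 ≤ b := le_min (hB t₀) hx
  have hMb : ((K₁ + 2 : ℕ) : ℝ) ≤ η * b := by
    have : (K₂ : ℝ) ≤ b := by exact_mod_cast (by omega : K₂ ≤ b)
    rw [div_le_iff₀ hη0] at hK₂
    nlinarith
  obtain ⟨-, f2, f3⟩ := fl (by omega) hMb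
  set U : ℕ := ⌊η * b⌋₊ with hU
  have hUb : U ≤ b := by
    have : (U : ℝ) ≤ b := by
      refine f2.trans ?_
      have : (0 : ℝ) ≤ b := Nat.cast_nonneg _
      nlinarith
    exact_mod_cast this
  have hU0 : 0 < U := by omega
  have h1 := addu a L vn vt t₀ B x U hB0 hx0 hU0 F hF
  have hxR : (0 : ℝ) < x := by exact_mod_cast hx0
  have h2 : 4 * |(vn : ℝ)| * U / x + |(vt : ℝ)| * U / B t₀ ≤ ε / 2 := by
    have hBt : (0 : ℝ) < B t₀ := by exact_mod_cast hB0 t₀
    have hbx : (b : ℝ) ≤ x := by exact_mod_cast hb2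
    have hbt : (b : ℝ) ≤ B t₀ := by exact_mod_cast hb1
    have e1 : 4 * |(vn : ℝ)| * U / x ≤ 4 * |(vn : ℝ)| * η := by
      rw [div_le_iff₀ hxR]
      calc 4 * |(vn : ℝ)| * U ≤ 4 * |(vn : ℝ)| * (η * x) := by
            refine mul_le_mul_of_nonneg_left (f2.trans ?_) (by positivity)
            exact mul_le_mul_of_nonneg_left hbx hη0.le
        _ = _ := by ring
    have e2 : |(vt : ℝ)| * U / B t₀ ≤ |(vt : ℝ)| * η := by
      rw [div_le_iff₀ hBt]
      calc |(vt : ℝ)| * U ≤ |(vt : ℝ)| * (η * B t₀) := by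
            refine mul_le_mul_of_nonneg_left (f2.trans ?_) (by positivity)
            exact mul_le_mul_of_nonneg_left hbt hη0.le
        _ = _ := by ring
    have e4 : C₁ * η ≤ ε / 2 := by
      calc C₁ * η ≤ C₁ * (ε / (2 * (C₁ + 1))) :=
            mul_le_mul_of_nonneg_left (min_le_right _ _) hC₁0
        _ = (ε / 2) * (C₁ / (C₁ + 1)) := by field_simp
        _ ≤ (ε / 2) * 1 := by
            refine mul_le_mul_of_nonneg_left ?_ (by positivity)
            rw [div_le_one (by positivity)]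
            linarith
        _ = _ := mul_one _
    have e5 : C₁ * η = 4 * |(vn : ℝ)| * η + |(vt : ℝ)| * η := by rw [hC₁]; ring
    linarith
  set L' : ι → κ ⊕ Unit → ℤ := fun i => Sum.elim (L i) (fun _ => a i * vn + L i t₀ * vt) with hL'
  have h3 : ER (Sum.elim B (fun _ : Unit => U)) (fun z => ‖cc a L' F x z‖ ^ 2) ≤ ε / 2 := by
    rw [ER_sum]
    refine (ER_mono B (g := fun _ => ε / 2) fun y hy => ?_).trans
      (ER_const_le B (by positivity))
    rw [ER_unit]
    have hy' := mem_Box.mp hy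
    set c : ℤ := LL L i₁ y with hc
    have hcC : |c| ≤ C * x := by
      rw [hc, hC]
      unfold LL
      refine (Finset.abs_sum_le_sum_abs _ _).trans ?_
      push_cast
      rw [Finset.mul_sum, Finset.sum_mul]
      refine Finset.sum_le_sum fun j _ => ?_
      rw [abs_mul, abs_of_nonneg (by have := hy' j; omega : (0 : ℤ) ≤ y j)]
      have e1 : y j ≤ R * x := by
        have e2 := (hy' j).2
        have e3 : ((B j : ℕ) : ℤ) ≤ R * x := by exact_mod_cast hBx j
        exact e2.trans e3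
      calc |L i₁ j| * y j ≤ |L i₁ j| * (R * x) := mul_le_mul_of_nonneg_left e1 (abs_nonneg _)
        _ = _ := by ring
    have h4 := hK₁ U x (by omega) (by omega) (by omega) c hcC
      (fun n => F i₀ (a i₀ * n + LL L i₀ y)) (fun n => hF _ _)
    refine (Finset.sum_le_sum ?_ |> fun hs => div_le_div_of_nonneg_right hs (Nat.cast_nonneg _)).trans h4
    intro u _
    have h5 : cc a L' F x (Sum.elim y fun _ => u)
        = av x fun n => F i₀ (a i₀ * n + LL L i₀ y) * h (a i₁ * n + V i₁ * u + c) := by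
      unfold Pool.Agent.N675.M.cc
      congr 1
      funext n
      rw [Fintype.prod_eq_mul i₀ i₁ hne]
      · have hLL : ∀ i, LL L' i (Sum.elim y fun _ => u) = LL L i y + V i * u := by
          intro i
          unfold LL
          rw [Fintype.sum_sum_type]
          simp [hL', hV]
        rw [hLL, hLL, hV0, hFh]
        congr 2
        · ring
        · rw [hc]; ring
      · intro i hi
        rcases hall i with h6 | h6
        · exact absurd h6 hi.1
        · exact absurd h6 hi.2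
    rw [h5]
    have h6 : ‖av x fun n => F i₀ (a i₀ * n + LL L i₀ y) * h (a i₁ * n + V i₁ * u + c)‖ ≤ 1 := by
      rw [← h5]
      exact norm_cc_le a L' F hF x _
    exact pow_le_of_le_one (norm_nonneg _) h6 two_ne_zero
  have h4 : ER B (fun y => ‖cc a L F x y‖ ^ 2)
      ≤ ER (Sum.elim B (fun _ : Unit => U)) (fun z => ‖cc a L' F x z‖ ^ 2)
        + (4 * |(vn : ℝ)| * U / x + |(vt : ℝ)| * U / B t₀) := h1
  linarith

end Pool.Agent.N26.M
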